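import Mathlib

namespace Pool.Agent.H995.GD

structure Pt where
  p0 : ℤ
  p1 : ℤ
  p2 : ℤ
  t : ℤ

structure Du where
  V : ℤ
  a0 : ℤ
  a1 : ℤ
  a2 : ℤ
  b0 : ℤ
  b1 : ℤ
  b2 : ℤ
  q0 : ℤ
  q1 : ℤ
  q2 : ℤ
  r0 : ℤ
  r1 : ℤ
  r2 : ℤ

inductive Tr
  | leaf (d0 d1 d2 d3 : Du)
  | n01 (l r : Tr)
  | n02 (l r : Tr)
  | n03 (l r : Tr)
  | n12 (l r : Tr)
  | n13 (l r : Tr)
  | n23 (l r : Tr)

def okA (C : ℤ) (x : Pt) (d : Du) : Bool :=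
  decide (0 ≤ d.a0 ∧ 0 ≤ d.a1 ∧ 0 ≤ d.a2 ∧ 0 ≤ d.b0 ∧ 0 ≤ d.b1 ∧ 0 ≤ d.b2) &&
  decide (d.a0 ≤ x.t ∧ d.a1 ≤ x.t ∧ d.a2 ≤ x.t ∧ d.b0 + x.t ≤ 240 ∧ d.b1 + x.t ≤ 240 ∧ d.b2 + x.t ≤ 240) &&
  decide (0 ≤ d.q0 ∧ 0 ≤ d.q1 ∧ 0 ≤ d.q2 ∧ 0 ≤ d.r0 ∧ 0 ≤ d.r1 ∧ 0 ≤ d.r2) &&
  decide (2 * d.q0 ≤ C * x.p0 ∧ 2 * d.q1 ≤ C * x.p1 ∧ 2 * d.q2 ≤ C * x.p2 ∧
    2 * d.r0 ≤ C * x.p0 ∧ 2 * d.r1 ≤ C * x.p1 ∧ 2 * d.r2 ≤ C * x.p2) &&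
  decide (C * x.p0 + 4 * (d.a0 + d.b0 + x.t - d.a2 + d.r2) ≤ 4 * d.V ∧
    C * x.p1 + 4 * (d.a1 + d.b1 + x.t - d.a0 + d.r0) ≤ 4 * d.V ∧
    C * x.p2 + 4 * (d.a2 + d.b2 + x.t - d.a1 + d.r1) ≤ 4 * d.V ∧
    C * x.p0 + 4 * (d.a0 + d.b0 + 240 - x.t - d.b2 + d.q2) ≤ 4 * d.V ∧
    C * x.p1 + 4 * (d.a1 + d.b1 + 240 - x.t - d.b0 + d.q0) ≤ 4 * d.V ∧
    C * x.p2 + 4 * (d.a2 + d.b2 + 240 - x.t - d.b1 + d.q1) ≤ 4 * d.V)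

def okB (C : ℤ) (x : Pt) (d : Du) (v : ℤ × ℤ) : Bool :=
  decide (2 * d.q0 * v.2 ≤ C * x.t * v.1 ∧ 2 * d.q1 * v.2 ≤ C * x.t * v.1 ∧
    2 * d.q2 * v.2 ≤ C * x.t * v.1 ∧ 2 * d.r0 * v.2 ≤ C * (240 - x.t) * v.1 ∧
    2 * d.r1 * v.2 ≤ C * (240 - x.t) * v.1 ∧ 2 * d.r2 * v.2 ≤ C * (240 - x.t) * v.1)

def alp (C : ℤ) (d e : Du) : ℤ := 24 * C * 240 * (d.V + e.V) - 8 * C * (4 + C) * 240 * 240

def bet (C : ℤ) (x : Pt) (d : Du) (y : Pt) (e : Du) : ℤ :=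
  8 * C * (C + 2) * 240 * 240
    - 24 * C * (x.t * (e.q0 + e.q1 + e.q2) + (240 - x.t) * (e.r0 + e.r1 + e.r2)
      + y.t * (d.q0 + d.q1 + d.q2) + (240 - y.t) * (d.r0 + d.r1 + d.r2))

def gam (C : ℤ) (x : Pt) (d : Du) (y : Pt) (e : Du) : ℤ :=
  6 * C * C * 240 * 240
    - 24 * C * (x.p0 * (e.q0 + e.r0) + x.p1 * (e.q1 + e.r1) + x.p2 * (e.q2 + e.r2)
      + y.p0 * (d.q0 + d.r0) + y.p1 * (d.q1 + d.r1) + y.p2 * (d.q2 + d.r2))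
    + 96 * (d.q0 * e.q0 + d.q1 * e.q1 + d.q2 * e.q2 + d.r0 * e.r0 + d.r1 * e.r1 + d.r2 * e.r2)

def okE (C P : ℤ) (L : List (ℤ × ℤ)) (x : Pt) (d : Du) (y : Pt) (e : Du) : Bool :=
  L.all (fun v => decide (alp C d e * (P - v.2) + bet C x d y e * v.1 + gam C x d y e * v.2 ≤ 0))

def mid (x y : Pt) : Pt := ⟨(x.p0 + y.p0) / 2, (x.p1 + y.p1) / 2, (x.p2 + y.p2) / 2, (x.t + y.t) / 2⟩

def okM (x y : Pt) : Bool :=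
  decide (2 * (mid x y).p0 = x.p0 + y.p0 ∧ 2 * (mid x y).p1 = x.p1 + y.p1 ∧
    2 * (mid x y).p2 = x.p2 + y.p2 ∧ 2 * (mid x y).t = x.t + y.t)

def chk (C P : ℤ) (L : List (ℤ × ℤ)) : Pt → Pt → Pt → Pt → Tr → Bool
  | x0, x1, x2, x3, .leaf d0 d1 d2 d3 =>
    okA C x0 d0 && okA C x1 d1 && okA C x2 d2 && okA C x3 d3 &&
    L.all (fun v => okB C x0 d0 v && okB C x1 d1 v && okB C x2 d2 v && okB C x3 d3 v) &&
    okE C P L x0 d0 x0 d0 && okE C P L x1 d1 x1 d1 && okE C P L x2 d2 x2 d2 && okE C P L x3 d3 x3 d3 &&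
    okE C P L x0 d0 x1 d1 && okE C P L x0 d0 x2 d2 && okE C P L x0 d0 x3 d3 &&
    okE C P L x1 d1 x2 d2 && okE C P L x1 d1 x3 d3 && okE C P L x2 d2 x3 d3
  | x0, x1, x2, x3, .n01 l r =>
    okM x0 x1 && chk C P L x0 (mid x0 x1) x2 x3 l && chk C P L (mid x0 x1) x1 x2 x3 r
  | x0, x1, x2, x3, .n02 l r =>
    okM x0 x2 && chk C P L x0 x1 (mid x0 x2) x3 l && chk C P L (mid x0 x2) x1 x2 x3 r
  | x0, x1, x2, x3, .n03 l r =>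
    okM x0 x3 && chk C P L x0 x1 x2 (mid x0 x3) l && chk C P L (mid x0 x3) x1 x2 x3 r
  | x0, x1, x2, x3, .n12 l r =>
    okM x1 x2 && chk C P L x0 x1 (mid x1 x2) x3 l && chk C P L x0 (mid x1 x2) x2 x3 r
  | x0, x1, x2, x3, .n13 l r =>
    okM x1 x3 && chk C P L x0 x1 x2 (mid x1 x3) l && chk C P L x0 (mid x1 x3) x2 x3 r
  | x0, x1, x2, x3, .n23 l r =>
    okM x2 x3 && chk C P L x0 x1 x2 (mid x2 x3) l && chk C P L x0 x1 (mid x2 x3) x3 r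

/-- convex hull of the vertices `(a / P, b / P)` in dual form -/
def InP (P : ℤ) (L : List (ℤ × ℤ)) (w o : ℝ) : Prop :=
  ∀ α β γ : ℝ, (∀ v ∈ L, α * P + β * v.1 + γ * v.2 ≤ 0) → α + β * w + γ * o ≤ 0

/-- certificate at a real point, everything in units 1/240 -/
def Cert (C w o p0 p1 p2 t : ℝ) : Prop :=
  ∃ V a0 a1 a2 b0 b1 b2 q0 q1 q2 r0 r1 r2 : ℝ,
    (0 ≤ a0 ∧ 0 ≤ a1 ∧ 0 ≤ a2 ∧ 0 ≤ b0 ∧ 0 ≤ b1 ∧ 0 ≤ b2) ∧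
    (a0 ≤ t ∧ a1 ≤ t ∧ a2 ≤ t ∧ b0 + t ≤ 240 ∧ b1 + t ≤ 240 ∧ b2 + t ≤ 240) ∧
    (0 ≤ q0 ∧ 0 ≤ q1 ∧ 0 ≤ q2 ∧ 0 ≤ r0 ∧ 0 ≤ r1 ∧ 0 ≤ r2) ∧
    (2 * q0 ≤ C * p0 ∧ 2 * q1 ≤ C * p1 ∧ 2 * q2 ≤ C * p2 ∧
      2 * r0 ≤ C * p0 ∧ 2 * r1 ≤ C * p1 ∧ 2 * r2 ≤ C * p2) ∧
    (C * p0 + 4 * (a0 + b0 + t - a2 + r2) ≤ 4 * V ∧
      C * p1 + 4 * (a1 + b1 + t - a0 + r0) ≤ 4 * V ∧
      C * p2 + 4 * (a2 + b2 + t - a1 + r1) ≤ 4 * V ∧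
      C * p0 + 4 * (a0 + b0 + 240 - t - b2 + q2) ≤ 4 * V ∧
      C * p1 + 4 * (a1 + b1 + 240 - t - b0 + q0) ≤ 4 * V ∧
      C * p2 + 4 * (a2 + b2 + 240 - t - b1 + q1) ≤ 4 * V) ∧
    (2 * q0 * o ≤ C * t * w ∧ 2 * q1 * o ≤ C * t * w ∧ 2 * q2 * o ≤ C * t * w ∧
      2 * r0 * o ≤ C * (240 - t) * w ∧ 2 * r1 * o ≤ C * (240 - t) * w ∧
      2 * r2 * o ≤ C * (240 - t) * w) ∧
    (24 * C * 240 * V - 4 * C * (4 + C) * 240 * 240) * (1 - o)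
      + (4 * C * (C + 2) * 240 * 240
          - 24 * C * (t * (q0 + q1 + q2) + (240 - t) * (r0 + r1 + r2))) * w
      + (3 * C * C * 240 * 240 - 24 * C * (p0 * (q0 + r0) + p1 * (q1 + r1) + p2 * (q2 + r2))
          + 48 * (q0 * q0 + q1 * q1 + q2 * q2 + r0 * r0 + r1 * r1 + r2 * r2)) * o ≤ 0

theorem okE_real {C P : ℤ} {L : List (ℤ × ℤ)} {x y : Pt} {d e : Du}
    (h : okE C P L x d y e = true) {w o : ℝ} (hin : InP P L w o) :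
    ((alp C d e : ℤ) : ℝ) * (1 - o) + ((bet C x d y e : ℤ) : ℝ) * w
      + ((gam C x d y e : ℤ) : ℝ) * o ≤ 0 := by
  have := hin (alp C d e : ℤ) (bet C x d y e : ℤ) ((gam C x d y e : ℤ) - (alp C d e : ℤ)) (by
    intro v hv
    have h1 := (List.all_eq_true.mp h) v hv
    have h2 := of_decide_eq_true h1
    have h3 : ((alp C d e * (P - v.2) + bet C x d y e * v.1 + gam C x d y e * v.2 : ℤ) : ℝ) ≤ 0 := by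
      exact_mod_cast h2
    push_cast at h3 ⊢
    linarith)
  linarith

theorem lin_real {P : ℤ} {L : List (ℤ × ℤ)} {a b : ℤ} {w o : ℝ} (hin : InP P L w o)
    (h : ∀ v ∈ L, a * v.2 ≤ b * v.1) : (a : ℝ) * o ≤ (b : ℝ) * w := by
  have := hin 0 (-b) a (by
    intro v hv
    have h1 := h v hv
    have h3 : ((a * v.2 : ℤ) : ℝ) ≤ ((b * v.1 : ℤ) : ℝ) := by exact_mod_cast h1
    push_cast at h3
    linarith)
  linarith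

theorem comb4 {l0 l1 l2 l3 a0 a1 a2 a3 b0 b1 b2 b3 : ℝ} (h0 : 0 ≤ l0) (h1 : 0 ≤ l1) (h2 : 0 ≤ l2)
    (h3 : 0 ≤ l3) (c0 : a0 ≤ b0) (c1 : a1 ≤ b1) (c2 : a2 ≤ b2) (c3 : a3 ≤ b3) :
    l0 * a0 + l1 * a1 + l2 * a2 + l3 * a3 ≤ l0 * b0 + l1 * b1 + l2 * b2 + l3 * b3 :=
  add_le_add (add_le_add (add_le_add (mul_le_mul_of_nonneg_left c0 h0)
    (mul_le_mul_of_nonneg_left c1 h1)) (mul_le_mul_of_nonneg_left c2 h2))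
    (mul_le_mul_of_nonneg_left c3 h3)

theorem okA_real {C : ℤ} {x : Pt} {d : Du} (h : okA C x d = true) :
    ((0 : ℝ) ≤ d.a0 ∧ (0 : ℝ) ≤ d.a1 ∧ (0 : ℝ) ≤ d.a2 ∧ (0 : ℝ) ≤ d.b0 ∧ (0 : ℝ) ≤ d.b1 ∧
      (0 : ℝ) ≤ d.b2) ∧
    ((d.a0 : ℝ) ≤ x.t ∧ (d.a1 : ℝ) ≤ x.t ∧ (d.a2 : ℝ) ≤ x.t ∧ (d.b0 : ℝ) + x.t ≤ 240 ∧
      (d.b1 : ℝ) + x.t ≤ 240 ∧ (d.b2 : ℝ) + x.t ≤ 240) ∧
    ((0 : ℝ) ≤ d.q0 ∧ (0 : ℝ) ≤ d.q1 ∧ (0 : ℝ) ≤ d.q2 ∧ (0 : ℝ) ≤ d.r0 ∧ (0 : ℝ) ≤ d.r1 ∧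
      (0 : ℝ) ≤ d.r2) ∧
    (2 * (d.q0 : ℝ) ≤ C * x.p0 ∧ 2 * (d.q1 : ℝ) ≤ C * x.p1 ∧ 2 * (d.q2 : ℝ) ≤ C * x.p2 ∧
      2 * (d.r0 : ℝ) ≤ C * x.p0 ∧ 2 * (d.r1 : ℝ) ≤ C * x.p1 ∧ 2 * (d.r2 : ℝ) ≤ C * x.p2) ∧
    (C * (x.p0 : ℝ) + 4 * (d.a0 + d.b0 + x.t - d.a2 + d.r2) ≤ 4 * d.V ∧
      C * (x.p1 : ℝ) + 4 * (d.a1 + d.b1 + x.t - d.a0 + d.r0) ≤ 4 * d.V ∧
      C * (x.p2 : ℝ) + 4 * (d.a2 + d.b2 + x.t - d.a1 + d.r1) ≤ 4 * d.V ∧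
      C * (x.p0 : ℝ) + 4 * (d.a0 + d.b0 + 240 - x.t - d.b2 + d.q2) ≤ 4 * d.V ∧
      C * (x.p1 : ℝ) + 4 * (d.a1 + d.b1 + 240 - x.t - d.b0 + d.q0) ≤ 4 * d.V ∧
      C * (x.p2 : ℝ) + 4 * (d.a2 + d.b2 + 240 - x.t - d.b1 + d.q1) ≤ 4 * d.V) := by
  simp only [okA, Bool.and_eq_true, decide_eq_true_eq] at h
  obtain ⟨⟨⟨⟨h1, h2⟩, h3⟩, h4⟩, h5⟩ := h
  refine ⟨?_, ?_, ?_, ?_, ?_⟩
  · exact_mod_cast h1
  · exact_mod_cast h2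
  · exact_mod_cast h3
  · exact_mod_cast h4
  · exact_mod_cast h5

theorem okB_real {C P : ℤ} {L : List (ℤ × ℤ)} {x : Pt} {d : Du} {w o : ℝ} (hin : InP P L w o)
    (h : ∀ v ∈ L, okB C x d v = true) :
    2 * (d.q0 : ℝ) * o ≤ C * x.t * w ∧ 2 * (d.q1 : ℝ) * o ≤ C * x.t * w ∧
      2 * (d.q2 : ℝ) * o ≤ C * x.t * w ∧ 2 * (d.r0 : ℝ) * o ≤ C * (240 - x.t) * w ∧
      2 * (d.r1 : ℝ) * o ≤ C * (240 - x.t) * w ∧ 2 * (d.r2 : ℝ) * o ≤ C * (240 - x.t) * w := by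
  simp only [okB, decide_eq_true_eq] at h
  have k0 := lin_real (a := 2 * d.q0) (b := C * x.t) hin (fun v hv => (h v hv).1)
  have k1 := lin_real (a := 2 * d.q1) (b := C * x.t) hin (fun v hv => (h v hv).2.1)
  have k2 := lin_real (a := 2 * d.q2) (b := C * x.t) hin (fun v hv => (h v hv).2.2.1)
  have k3 := lin_real (a := 2 * d.r0) (b := C * (240 - x.t)) hin (fun v hv => (h v hv).2.2.2.1)
  have k4 := lin_real (a := 2 * d.r1) (b := C * (240 - x.t)) hin (fun v hv => (h v hv).2.2.2.2.1)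
  have k5 := lin_real (a := 2 * d.r2) (b := C * (240 - x.t)) hin (fun v hv => (h v hv).2.2.2.2.2)
  push_cast at k0 k1 k2 k3 k4 k5
  exact ⟨k0, k1, k2, k3, k4, k5⟩

theorem idA (C l0 l1 l2 l3 V0 V1 V2 V3 : ℝ) (hs : l0 + l1 + l2 + l3 = 1) :
    24 * C * 240 * (l0 * V0 + l1 * V1 + l2 * V2 + l3 * V3) - 4 * C * (4 + C) * 240 * 240 = l0 * l0 * (24 * C * 240 * (V0 + V0) - 8 * C * (4 + C) * 240 * 240) / 2 + l0 * l1 * (24 * C * 240 * (V0 + V1) - 8 * C * (4 + C) * 240 * 240) + l0 * l2 * (24 * C * 240 * (V0 + V2) - 8 * C * (4 + C) * 240 * 240) + l0 * l3 * (24 * C * 240 * (V0 + V3) - 8 * C * (4 + C) * 240 * 240) + l1 * l1 * (24 * C * 240 * (V1 + V1) - 8 * C * (4 + C) * 240 * 240) / 2 + l1 * l2 * (24 * C * 240 * (V1 + V2) - 8 * C * (4 + C) * 240 * 240) + l1 * l3 * (24 * C * 240 * (V1 + V3) - 8 * C * (4 + C) * 240 *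 240) + l2 * l2 * (24 * C * 240 * (V2 + V2) - 8 * C * (4 + C) * 240 * 240) / 2 + l2 * l3 * (24 * C * 240 * (V2 + V3) - 8 * C * (4 + C) * 240 * 240) + l3 * l3 * (24 * C * 240 * (V3 + V3) - 8 * C * (4 + C) * 240 * 240) / 2 := by
  obtain rfl : l3 = 1 - l0 - l1 - l2 := by linarith
  ring

theorem idB (C l0 l1 l2 l3 t0 t1 t2 t3 q0_0 q0_1 q0_2 q0_3 q1_0 q1_1 q1_2 q1_3 q2_0 q2_1 q2_2 q2_3 r0_0 r0_1 r0_2 r0_3 r1_0 r1_1 r1_2 r1_3 r2_0 r2_1 r2_2 r2_3 : ℝ) (hs : l0 + l1 + l2 + l3 = 1) :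
    4 * C * (C + 2) * 240 * 240 - 24 * C * ((l0 * t0 + l1 * t1 + l2 * t2 + l3 * t3) * ((l0 * q0_0 + l1 * q0_1 + l2 * q0_2 + l3 * q0_3) + (l0 * q1_0 + l1 * q1_1 + l2 * q1_2 + l3 * q1_3) + (l0 * q2_0 + l1 * q2_1 + l2 * q2_2 + l3 * q2_3)) + (240 - (l0 * t0 + l1 * t1 + l2 * t2 + l3 * t3)) * ((l0 * r0_0 + l1 * r0_1 + l2 * r0_2 + l3 * r0_3) + (l0 * r1_0 + l1 * r1_1 + l2 * r1_2 + l3 * r1_3) + (l0 * r2_0 + l1 * r2_1 + l2 * r2_2 + l3 * r2_3))) = l0 * l0 * (8 * C * (C + 2) * 240 * 240 - 24 * C * (t0 * (q0_0 + q1_0 + q2_0) + (240 - t0) * (r0_0 + r1_0 + r2_0) + t0 * (q0_0 + q1_0 + q2_0) + (240 - t0) * (r0_0 + r1_0 + r2_0))) / 2 + l0 * l1 * (8 * C * (C + 2) * 240 * 240 - 24 * C * (t0 * (q0_1 + q1_1 + q2_1) + (240 - t0) * (r0_1 + r1_1 + r2_1) + t1 * (q0_0 + q1_0 + q2_0) + (240 - t1) * (r0_0 + r1_0 + r2_0))) + l0 * l2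 * (8 * C * (C + 2) * 240 * 240 - 24 * C * (t0 * (q0_2 + q1_2 + q2_2) + (240 - t0) * (r0_2 + r1_2 + r2_2) + t2 * (q0_0 + q1_0 + q2_0) + (240 - t2) * (r0_0 + r1_0 + r2_0))) + l0 * l3 * (8 * C * (C + 2) * 240 * 240 - 24 * C * (t0 * (q0_3 + q1_3 + q2_3) + (240 - t0) * (r0_3 + r1_3 + r2_3) + t3 * (q0_0 + q1_0 + q2_0) + (240 - t3) * (r0_0 + r1_0 + r2_0))) + l1 * l1 * (8 * C * (C + 2) * 240 * 240 - 24 * C * (t1 * (q0_1 + q1_1 + q2_1) + (240 - t1) * (r0_1 + r1_1 + r2_1) + t1 * (q0_1 + q1_1 + q2_1) + (240 - t1) * (r0_1 + r1_1 + r2_1))) / 2 + l1 * l2 * (8 * C * (C + 2) * 240 * 240 - 24 * C * (t1 * (q0_2 + q1_2 + q2_2) + (240 - t1) * (r0_2 + r1_2 + r2_2) + t2 * (q0_1 + q1_1 + q2_1) + (240 - t2) * (r0_1 + r1_1 + r2_1))) + l1 * l3 * (8 * C * (C + 2) * 240 * 240 - 24 * C * (t1 * (q0_3 + q1_3 + q2_3) + (240 - t1) * (r0_3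 + r1_3 + r2_3) + t3 * (q0_1 + q1_1 + q2_1) + (240 - t3) * (r0_1 + r1_1 + r2_1))) + l2 * l2 * (8 * C * (C + 2) * 240 * 240 - 24 * C * (t2 * (q0_2 + q1_2 + q2_2) + (240 - t2) * (r0_2 + r1_2 + r2_2) + t2 * (q0_2 + q1_2 + q2_2) + (240 - t2) * (r0_2 + r1_2 + r2_2))) / 2 + l2 * l3 * (8 * C * (C + 2) * 240 * 240 - 24 * C * (t2 * (q0_3 + q1_3 + q2_3) + (240 - t2) * (r0_3 + r1_3 + r2_3) + t3 * (q0_2 + q1_2 + q2_2) + (240 - t3) * (r0_2 + r1_2 + r2_2))) + l3 * l3 * (8 * C * (C + 2) * 240 * 240 - 24 * C * (t3 * (q0_3 + q1_3 + q2_3) + (240 - t3) * (r0_3 + r1_3 + r2_3) + t3 * (q0_3 + q1_3 + q2_3) + (240 - t3) * (r0_3 + r1_3 + r2_3))) / 2 := by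
  have h2 : (l0 + l1 + l2 + l3) ^ 2 = 1 := by rw [hs]; norm_num
  linear_combination (-(4 * C * (C + 2) * 240 * 240)) * h2 + (24 * C * 240 * ((l0 * r0_0 + l1 * r0_1 + l2 * r0_2 + l3 * r0_3) + (l0 * r1_0 + l1 * r1_1 + l2 * r1_2 + l3 * r1_3) + (l0 * r2_0 + l1 * r2_1 + l2 * r2_2 + l3 * r2_3))) * hs

theorem idG (C l0 l1 l2 l3 p0_0 p0_1 p0_2 p0_3 p1_0 p1_1 p1_2 p1_3 p2_0 p2_1 p2_2 p2_3 q0_0 q0_1 q0_2 q0_3 q1_0 q1_1 q1_2 q1_3 q2_0 q2_1 q2_2 q2_3 r0_0 r0_1 r0_2 r0_3 r1_0 r1_1 r1_2 r1_3 r2_0 r2_1 r2_2 r2_3 : ℝ) (hs : l0 + l1 + l2 + l3 = 1) :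
    3 * C * C * 240 * 240 - 24 * C * ((l0 * p0_0 + l1 * p0_1 + l2 * p0_2 + l3 * p0_3) * ((l0 * q0_0 + l1 * q0_1 + l2 * q0_2 + l3 * q0_3) + (l0 * r0_0 + l1 * r0_1 + l2 * r0_2 + l3 * r0_3)) + (l0 * p1_0 + l1 * p1_1 + l2 * p1_2 + l3 * p1_3) * ((l0 * q1_0 + l1 * q1_1 + l2 * q1_2 + l3 * q1_3) + (l0 * r1_0 + l1 * r1_1 + l2 * r1_2 + l3 * r1_3)) + (l0 * p2_0 + l1 * p2_1 + l2 * p2_2 + l3 * p2_3) * ((l0 * q2_0 + l1 * q2_1 + l2 * q2_2 + l3 * q2_3) + (l0 * r2_0 + l1 * r2_1 + l2 * r2_2 + l3 * r2_3))) + 48 * ((l0 * q0_0 + l1 * q0_1 + l2 * q0_2 + l3 * q0_3) * (l0 * q0_0 + l1 * q0_1 + l2 * q0_2 + l3 * q0_3) + (l0 * q1_0 + l1 * q1_1 + l2 * q1_2 + l3 * q1_3) * (l0 * q1_0 + l1 * q1_1 + l2 * q1_2 + l3 * q1_3) + (l0 * q2_0 + l1 * q2_1 + l2 * q2_2 + l3 * q2_3) * (l0 * q2_0 + l1 * q2_1 + l2 * q2_2 + l3 * q2_3) + (l0 * r0_0 +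 l1 * r0_1 + l2 * r0_2 + l3 * r0_3) * (l0 * r0_0 + l1 * r0_1 + l2 * r0_2 + l3 * r0_3) + (l0 * r1_0 + l1 * r1_1 + l2 * r1_2 + l3 * r1_3) * (l0 * r1_0 + l1 * r1_1 + l2 * r1_2 + l3 * r1_3) + (l0 * r2_0 + l1 * r2_1 + l2 * r2_2 + l3 * r2_3) * (l0 * r2_0 + l1 * r2_1 + l2 * r2_2 + l3 * r2_3)) = l0 * l0 * (6 * C * C * 240 * 240 - 24 * C * (p0_0 * (q0_0 + r0_0) + p1_0 * (q1_0 + r1_0) + p2_0 * (q2_0 + r2_0) + p0_0 * (q0_0 + r0_0) + p1_0 * (q1_0 + r1_0) + p2_0 * (q2_0 + r2_0)) + 96 * (q0_0 * q0_0 + q1_0 * q1_0 + q2_0 * q2_0 + r0_0 * r0_0 + r1_0 * r1_0 + r2_0 * r2_0)) / 2 + l0 * l1 * (6 * C * C * 240 * 240 - 24 * C * (p0_0 * (q0_1 + r0_1) + p1_0 * (q1_1 + r1_1) + p2_0 * (q2_1 + r2_1) + p0_1 * (q0_0 + r0_0) + p1_1 * (q1_0 + r1_0) + p2_1 * (q2_0 + r2_0)) + 96 * (q0_0 * q0_1 + q1_0 * q1_1 + q2_0 * q2_1 + r0_0 * r0_1 +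 r1_0 * r1_1 + r2_0 * r2_1)) + l0 * l2 * (6 * C * C * 240 * 240 - 24 * C * (p0_0 * (q0_2 + r0_2) + p1_0 * (q1_2 + r1_2) + p2_0 * (q2_2 + r2_2) + p0_2 * (q0_0 + r0_0) + p1_2 * (q1_0 + r1_0) + p2_2 * (q2_0 + r2_0)) + 96 * (q0_0 * q0_2 + q1_0 * q1_2 + q2_0 * q2_2 + r0_0 * r0_2 + r1_0 * r1_2 + r2_0 * r2_2)) + l0 * l3 * (6 * C * C * 240 * 240 - 24 * C * (p0_0 * (q0_3 + r0_3) + p1_0 * (q1_3 + r1_3) + p2_0 * (q2_3 + r2_3) + p0_3 * (q0_0 + r0_0) + p1_3 * (q1_0 + r1_0) + p2_3 * (q2_0 + r2_0)) + 96 * (q0_0 * q0_3 + q1_0 * q1_3 + q2_0 * q2_3 + r0_0 * r0_3 + r1_0 * r1_3 + r2_0 * r2_3)) + l1 * l1 * (6 * C * C * 240 * 240 - 24 * C * (p0_1 * (q0_1 + r0_1) + p1_1 * (q1_1 + r1_1) + p2_1 * (q2_1 + r2_1) + p0_1 * (q0_1 + r0_1) + p1_1 * (q1_1 + r1_1) + p2_1 * (q2_1 + r2_1)) + 96 * (q0_1 * q0_1 + q1_1 * q1_1 + q2_1 * q2_1 +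 r0_1 * r0_1 + r1_1 * r1_1 + r2_1 * r2_1)) / 2 + l1 * l2 * (6 * C * C * 240 * 240 - 24 * C * (p0_1 * (q0_2 + r0_2) + p1_1 * (q1_2 + r1_2) + p2_1 * (q2_2 + r2_2) + p0_2 * (q0_1 + r0_1) + p1_2 * (q1_1 + r1_1) + p2_2 * (q2_1 + r2_1)) + 96 * (q0_1 * q0_2 + q1_1 * q1_2 + q2_1 * q2_2 + r0_1 * r0_2 + r1_1 * r1_2 + r2_1 * r2_2)) + l1 * l3 * (6 * C * C * 240 * 240 - 24 * C * (p0_1 * (q0_3 + r0_3) + p1_1 * (q1_3 + r1_3) + p2_1 * (q2_3 + r2_3) + p0_3 * (q0_1 + r0_1) + p1_3 * (q1_1 + r1_1) + p2_3 * (q2_1 + r2_1)) + 96 * (q0_1 * q0_3 + q1_1 * q1_3 + q2_1 * q2_3 + r0_1 * r0_3 + r1_1 * r1_3 + r2_1 * r2_3)) + l2 * l2 * (6 * C * C * 240 * 240 - 24 * C * (p0_2 * (q0_2 + r0_2) + p1_2 * (q1_2 + r1_2) + p2_2 * (q2_2 + r2_2) + p0_2 * (q0_2 + r0_2) + p1_2 * (q1_2 + r1_2) + p2_2 * (q2_2 + r2_2)) + 96 * (q0_2 * q0_2 + q1_2 * q1_2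 + q2_2 * q2_2 + r0_2 * r0_2 + r1_2 * r1_2 + r2_2 * r2_2)) / 2 + l2 * l3 * (6 * C * C * 240 * 240 - 24 * C * (p0_2 * (q0_3 + r0_3) + p1_2 * (q1_3 + r1_3) + p2_2 * (q2_3 + r2_3) + p0_3 * (q0_2 + r0_2) + p1_3 * (q1_2 + r1_2) + p2_3 * (q2_2 + r2_2)) + 96 * (q0_2 * q0_3 + q1_2 * q1_3 + q2_2 * q2_3 + r0_2 * r0_3 + r1_2 * r1_3 + r2_2 * r2_3)) + l3 * l3 * (6 * C * C * 240 * 240 - 24 * C * (p0_3 * (q0_3 + r0_3) + p1_3 * (q1_3 + r1_3) + p2_3 * (q2_3 + r2_3) + p0_3 * (q0_3 + r0_3) + p1_3 * (q1_3 + r1_3) + p2_3 * (q2_3 + r2_3)) + 96 * (q0_3 * q0_3 + q1_3 * q1_3 + q2_3 * q2_3 + r0_3 * r0_3 + r1_3 * r1_3 + r2_3 * r2_3)) / 2 := by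
  have h2 : (l0 + l1 + l2 + l3) ^ 2 = 1 := by rw [hs]; norm_num
  linear_combination (-(3 * C * C * 240 * 240)) * h2

set_option maxHeartbeats 4000000 in
theorem leaf_sound {C P : ℤ} {L : List (ℤ × ℤ)} {x0 x1 x2 x3 : Pt} {d0 d1 d2 d3 : Du}
    (h : chk C P L x0 x1 x2 x3 (.leaf d0 d1 d2 d3) = true) {w o : ℝ} (hin : InP P L w o)
    {l0 l1 l2 l3 : ℝ} (h0 : 0 ≤ l0) (h1 : 0 ≤ l1) (h2 : 0 ≤ l2) (h3 : 0 ≤ l3)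
    (hs : l0 + l1 + l2 + l3 = 1) :
    Cert C w o (l0 * x0.p0 + l1 * x1.p0 + l2 * x2.p0 + l3 * x3.p0)
      (l0 * x0.p1 + l1 * x1.p1 + l2 * x2.p1 + l3 * x3.p1)
      (l0 * x0.p2 + l1 * x1.p2 + l2 * x2.p2 + l3 * x3.p2)
      (l0 * x0.t + l1 * x1.t + l2 * x2.t + l3 * x3.t) := by
  simp only [chk, Bool.and_eq_true] at h
  obtain ⟨⟨⟨⟨⟨⟨⟨⟨⟨⟨⟨⟨⟨⟨hA0, hA1⟩, hA2⟩, hA3⟩, hB⟩, e00⟩, e11⟩, e22⟩, e33⟩, e01⟩, e02⟩, e03⟩, e12⟩, e13⟩, e23⟩ := h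
  have hB' := List.all_eq_true.mp hB
  simp only [Bool.and_eq_true] at hB'
  obtain ⟨A01, A02, A03, A04, A05⟩ := okA_real hA0
  obtain ⟨A11, A12, A13, A14, A15⟩ := okA_real hA1
  obtain ⟨A21, A22, A23, A24, A25⟩ := okA_real hA2
  obtain ⟨A31, A32, A33, A34, A35⟩ := okA_real hA3
  have B0 := okB_real hin (fun v hv => (hB' v hv).1.1.1)
  have B1 := okB_real hin (fun v hv => (hB' v hv).1.1.2)
  have B2 := okB_real hin (fun v hv => (hB' v hv).1.2)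
  have B3 := okB_real hin (fun v hv => (hB' v hv).2)
  have E00 := okE_real e00 hin
  have E11 := okE_real e11 hin
  have E22 := okE_real e22 hin
  have E33 := okE_real e33 hin
  have E01 := okE_real e01 hin
  have E02 := okE_real e02 hin
  have E03 := okE_real e03 hin
  have E12 := okE_real e12 hin
  have E13 := okE_real e13 hin
  have E23 := okE_real e23 hin
  refine ⟨l0 * d0.V + l1 * d1.V + l2 * d2.V + l3 * d3.V,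
    l0 * d0.a0 + l1 * d1.a0 + l2 * d2.a0 + l3 * d3.a0,
    l0 * d0.a1 + l1 * d1.a1 + l2 * d2.a1 + l3 * d3.a1,
    l0 * d0.a2 + l1 * d1.a2 + l2 * d2.a2 + l3 * d3.a2,
    l0 * d0.b0 + l1 * d1.b0 + l2 * d2.b0 + l3 * d3.b0,
    l0 * d0.b1 + l1 * d1.b1 + l2 * d2.b1 + l3 * d3.b1,
    l0 * d0.b2 + l1 * d1.b2 + l2 * d2.b2 + l3 * d3.b2,
    l0 * d0.q0 + l1 * d1.q0 + l2 * d2.q0 + l3 * d3.q0,
    l0 * d0.q1 + l1 * d1.q1 + l2 * d2.q1 + l3 * d3.q1,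
    l0 * d0.q2 + l1 * d1.q2 + l2 * d2.q2 + l3 * d3.q2,
    l0 * d0.r0 + l1 * d1.r0 + l2 * d2.r0 + l3 * d3.r0,
    l0 * d0.r1 + l1 * d1.r1 + l2 * d2.r1 + l3 * d3.r1,
    l0 * d0.r2 + l1 * d1.r2 + l2 * d2.r2 + l3 * d3.r2, ?_, ?_, ?_, ?_, ?_, ?_, ?_⟩
  · refine ⟨?_, ?_, ?_, ?_, ?_, ?_⟩
    · linarith [comb4 h0 h1 h2 h3 A01.1 A11.1 A21.1 A31.1]
    · linarith [comb4 h0 h1 h2 h3 A01.2.1 A11.2.1 A21.2.1 A31.2.1]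
    · linarith [comb4 h0 h1 h2 h3 A01.2.2.1 A11.2.2.1 A21.2.2.1 A31.2.2.1]
    · linarith [comb4 h0 h1 h2 h3 A01.2.2.2.1 A11.2.2.2.1 A21.2.2.2.1 A31.2.2.2.1]
    · linarith [comb4 h0 h1 h2 h3 A01.2.2.2.2.1 A11.2.2.2.2.1 A21.2.2.2.2.1 A31.2.2.2.2.1]
    · linarith [comb4 h0 h1 h2 h3 A01.2.2.2.2.2 A11.2.2.2.2.2 A21.2.2.2.2.2 A31.2.2.2.2.2]
  · refine ⟨?_, ?_, ?_, ?_, ?_, ?_⟩
    · linarith [comb4 h0 h1 h2 h3 A02.1 A12.1 A22.1 A32.1]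
    · linarith [comb4 h0 h1 h2 h3 A02.2.1 A12.2.1 A22.2.1 A32.2.1]
    · linarith [comb4 h0 h1 h2 h3 A02.2.2.1 A12.2.2.1 A22.2.2.1 A32.2.2.1]
    · linarith [comb4 h0 h1 h2 h3 A02.2.2.2.1 A12.2.2.2.1 A22.2.2.2.1 A32.2.2.2.1]
    · linarith [comb4 h0 h1 h2 h3 A02.2.2.2.2.1 A12.2.2.2.2.1 A22.2.2.2.2.1 A32.2.2.2.2.1]
    · linarith [comb4 h0 h1 h2 h3 A02.2.2.2.2.2 A12.2.2.2.2.2 A22.2.2.2.2.2 A32.2.2.2.2.2]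
  · refine ⟨?_, ?_, ?_, ?_, ?_, ?_⟩
    · linarith [comb4 h0 h1 h2 h3 A03.1 A13.1 A23.1 A33.1]
    · linarith [comb4 h0 h1 h2 h3 A03.2.1 A13.2.1 A23.2.1 A33.2.1]
    · linarith [comb4 h0 h1 h2 h3 A03.2.2.1 A13.2.2.1 A23.2.2.1 A33.2.2.1]
    · linarith [comb4 h0 h1 h2 h3 A03.2.2.2.1 A13.2.2.2.1 A23.2.2.2.1 A33.2.2.2.1]
    · linarith [comb4 h0 h1 h2 h3 A03.2.2.2.2.1 A13.2.2.2.2.1 A23.2.2.2.2.1 A33.2.2.2.2.1]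
    · linarith [comb4 h0 h1 h2 h3 A03.2.2.2.2.2 A13.2.2.2.2.2 A23.2.2.2.2.2 A33.2.2.2.2.2]
  · refine ⟨?_, ?_, ?_, ?_, ?_, ?_⟩
    · linarith [comb4 h0 h1 h2 h3 A04.1 A14.1 A24.1 A34.1]
    · linarith [comb4 h0 h1 h2 h3 A04.2.1 A14.2.1 A24.2.1 A34.2.1]
    · linarith [comb4 h0 h1 h2 h3 A04.2.2.1 A14.2.2.1 A24.2.2.1 A34.2.2.1]
    · linarith [comb4 h0 h1 h2 h3 A04.2.2.2.1 A14.2.2.2.1 A24.2.2.2.1 A34.2.2.2.1]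
    · linarith [comb4 h0 h1 h2 h3 A04.2.2.2.2.1 A14.2.2.2.2.1 A24.2.2.2.2.1 A34.2.2.2.2.1]
    · linarith [comb4 h0 h1 h2 h3 A04.2.2.2.2.2 A14.2.2.2.2.2 A24.2.2.2.2.2 A34.2.2.2.2.2]
  · refine ⟨?_, ?_, ?_, ?_, ?_, ?_⟩
    · linarith [comb4 h0 h1 h2 h3 A05.1 A15.1 A25.1 A35.1]
    · linarith [comb4 h0 h1 h2 h3 A05.2.1 A15.2.1 A25.2.1 A35.2.1]
    · linarith [comb4 h0 h1 h2 h3 A05.2.2.1 A15.2.2.1 A25.2.2.1 A35.2.2.1]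
    · linarith [comb4 h0 h1 h2 h3 A05.2.2.2.1 A15.2.2.2.1 A25.2.2.2.1 A35.2.2.2.1]
    · linarith [comb4 h0 h1 h2 h3 A05.2.2.2.2.1 A15.2.2.2.2.1 A25.2.2.2.2.1 A35.2.2.2.2.1]
    · linarith [comb4 h0 h1 h2 h3 A05.2.2.2.2.2 A15.2.2.2.2.2 A25.2.2.2.2.2 A35.2.2.2.2.2]
  · have hw : C * w * 240 = C * w * 240 * (l0 + l1 + l2 + l3) := by rw [hs]; ring
    refine ⟨?_, ?_, ?_, ?_, ?_, ?_⟩
    · linarith [comb4 h0 h1 h2 h3 B0.1 B1.1 B2.1 B3.1]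
    · linarith [comb4 h0 h1 h2 h3 B0.2.1 B1.2.1 B2.2.1 B3.2.1]
    · linarith [comb4 h0 h1 h2 h3 B0.2.2.1 B1.2.2.1 B2.2.2.1 B3.2.2.1]
    · linarith [comb4 h0 h1 h2 h3 B0.2.2.2.1 B1.2.2.2.1 B2.2.2.2.1 B3.2.2.2.1]
    · linarith [comb4 h0 h1 h2 h3 B0.2.2.2.2.1 B1.2.2.2.2.1 B2.2.2.2.2.1 B3.2.2.2.2.1]
    · linarith [comb4 h0 h1 h2 h3 B0.2.2.2.2.2 B1.2.2.2.2.2 B2.2.2.2.2.2 B3.2.2.2.2.2]
  · have m00 := mul_nonneg h0 h0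
    have m11 := mul_nonneg h1 h1
    have m22 := mul_nonneg h2 h2
    have m33 := mul_nonneg h3 h3
    have m01 := mul_nonneg h0 h1
    have m02 := mul_nonneg h0 h2
    have m03 := mul_nonneg h0 h3
    have m12 := mul_nonneg h1 h2
    have m13 := mul_nonneg h1 h3
    have m23 := mul_nonneg h2 h3
    have F00 := mul_nonpos_of_nonneg_of_nonpos m00 E00
    have F11 := mul_nonpos_of_nonneg_of_nonpos m11 E11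
    have F22 := mul_nonpos_of_nonneg_of_nonpos m22 E22
    have F33 := mul_nonpos_of_nonneg_of_nonpos m33 E33
    have F01 := mul_nonpos_of_nonneg_of_nonpos m01 E01
    have F02 := mul_nonpos_of_nonneg_of_nonpos m02 E02
    have F03 := mul_nonpos_of_nonneg_of_nonpos m03 E03
    have F12 := mul_nonpos_of_nonneg_of_nonpos m12 E12
    have F13 := mul_nonpos_of_nonneg_of_nonpos m13 E13
    have F23 := mul_nonpos_of_nonneg_of_nonpos m23 E23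
    have kA := idA (C : ℝ) l0 l1 l2 l3 ((d0.V : ℤ) : ℝ) ((d1.V : ℤ) : ℝ) ((d2.V : ℤ) : ℝ) ((d3.V : ℤ) : ℝ) hs
    have kB := idB (C : ℝ) l0 l1 l2 l3 ((x0.t : ℤ) : ℝ) ((x1.t : ℤ) : ℝ) ((x2.t : ℤ) : ℝ) ((x3.t : ℤ) : ℝ) ((d0.q0 : ℤ) : ℝ) ((d1.q0 : ℤ) : ℝ) ((d2.q0 : ℤ) : ℝ) ((d3.q0 : ℤ) : ℝ) ((d0.q1 : ℤ) : ℝ) ((d1.q1 : ℤ) : ℝ) ((d2.q1 : ℤ) : ℝ) ((d3.q1 : ℤ) : ℝ) ((d0.q2 : ℤ) : ℝ) ((d1.q2 : ℤ) : ℝ) ((d2.q2 : ℤ) : ℝ) ((d3.q2 : ℤ) : ℝ) ((d0.r0 : ℤ) : ℝ) ((d1.r0 : ℤ) : ℝ) ((d2.r0 : ℤ) : ℝ) ((d3.r0 : ℤ) : ℝ) ((d0.r1 : ℤ) : ℝ) ((d1.r1 : ℤ) : ℝ) ((d2.r1 : ℤ) : ℝ) ((d3.r1 : ℤ) : ℝ) ((d0.r2 : ℤ) : ℝ) ((d1.r2 : ℤ) : ℝ) ((d2.r2 : ℤ) : ℝ) ((d3.r2 : ℤ) : ℝ) hs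
    have kG := idG (C : ℝ) l0 l1 l2 l3 ((x0.p0 : ℤ) : ℝ) ((x1.p0 : ℤ) : ℝ) ((x2.p0 : ℤ) : ℝ) ((x3.p0 : ℤ) : ℝ) ((x0.p1 : ℤ) : ℝ) ((x1.p1 : ℤ) : ℝ) ((x2.p1 : ℤ) : ℝ) ((x3.p1 : ℤ) : ℝ) ((x0.p2 : ℤ) : ℝ) ((x1.p2 : ℤ) : ℝ) ((x2.p2 : ℤ) : ℝ) ((x3.p2 : ℤ) : ℝ) ((d0.q0 : ℤ) : ℝ) ((d1.q0 : ℤ) : ℝ) ((d2.q0 : ℤ) : ℝ) ((d3.q0 : ℤ) : ℝ) ((d0.q1 : ℤ) : ℝ) ((d1.q1 : ℤ) : ℝ) ((d2.q1 : ℤ) : ℝ) ((d3.q1 : ℤ) : ℝ) ((d0.q2 : ℤ) : ℝ) ((d1.q2 : ℤ) : ℝ) ((d2.q2 : ℤ) : ℝ) ((d3.q2 : ℤ) : ℝ) ((d0.r0 : ℤ) : ℝ) ((d1.r0 : ℤ) : ℝ) ((d2.r0 : ℤ) : ℝ) ((d3.r0 : ℤ) : ℝ) ((d0.r1 : ℤ) : ℝ) ((d1.r1 : ℤ) : ℝ) ((d2.r1 : ℤ) : ℝ) ((d3.r1 : ℤ) : ℝ) ((d0.r2 : ℤ) : ℝ) ((d1.r2 : ℤ) : ℝ) ((d2.r2 : ℤ) : ℝ) ((d3.r2 : ℤ) : ℝ) hs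
    simp only [alp, bet, gam] at F00 F11 F22 F33 F01 F02 F03 F12 F13 F23
    push_cast at F00 F11 F22 F33 F01 F02 F03 F12 F13 F23
    rw [kA, kB, kG]
    linear_combination (1 / 2) * F00 + (1 / 2) * F11 + (1 / 2) * F22 + (1 / 2) * F33 + F01 + F02 + F03 + F12 + F13 + F23

theorem mid_real {x y : Pt} (h : okM x y = true) :
    2 * ((mid x y).p0 : ℝ) = x.p0 + y.p0 ∧ 2 * ((mid x y).p1 : ℝ) = x.p1 + y.p1 ∧
    2 * ((mid x y).p2 : ℝ) = x.p2 + y.p2 ∧ 2 * ((mid x y).t : ℝ) = x.t + y.t := by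
  have h' := of_decide_eq_true h
  refine ⟨?_, ?_, ?_, ?_⟩
  · exact_mod_cast h'.1
  · exact_mod_cast h'.2.1
  · exact_mod_cast h'.2.2.1
  · exact_mod_cast h'.2.2.2

theorem Cert.congr {C w o p0 p1 p2 t p0' p1' p2' t' : ℝ} (h : Cert C w o p0 p1 p2 t)
    (e0 : p0 = p0') (e1 : p1 = p1') (e2 : p2 = p2') (e3 : t = t') : Cert C w o p0' p1' p2' t' := by
  subst e0 e1 e2 e3; exact h

theorem tree_sound {C P : ℤ} {L : List (ℤ × ℤ)} {w o : ℝ} (hin : InP P L w o) (T : Tr) :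
    ∀ (x0 x1 x2 x3 : Pt), chk C P L x0 x1 x2 x3 T = true →
    ∀ l0 l1 l2 l3 : ℝ, 0 ≤ l0 → 0 ≤ l1 → 0 ≤ l2 → 0 ≤ l3 → l0 + l1 + l2 + l3 = 1 →
    Cert C w o (l0 * x0.p0 + l1 * x1.p0 + l2 * x2.p0 + l3 * x3.p0)
      (l0 * x0.p1 + l1 * x1.p1 + l2 * x2.p1 + l3 * x3.p1)
      (l0 * x0.p2 + l1 * x1.p2 + l2 * x2.p2 + l3 * x3.p2)
      (l0 * x0.t + l1 * x1.t + l2 * x2.t + l3 * x3.t) := by
  induction T with
  | leaf d0 d1 d2 d3 =>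
    intro x0 x1 x2 x3 h l0 l1 l2 l3 h0 h1 h2 h3 hs
    exact leaf_sound h hin h0 h1 h2 h3 hs
  | n01 l r ihl ihr =>
    intro x0 x1 x2 x3 h l0 l1 l2 l3 h0 h1 h2 h3 hs
    simp only [chk, Bool.and_eq_true] at h
    obtain ⟨⟨hm, hl⟩, hr⟩ := h
    obtain ⟨m0, m1, m2, m3⟩ := mid_real hm
    rcases le_total l1 l0 with hc | hc
    · refine (ihl _ _ _ _ hl (l0 - l1) (2 * l1) l2 l3 (by linarith) (by linarith) h2 h3 (by linarith)).congr ?_ ?_ ?_ ?_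
      · linear_combination l1 * m0
      · linear_combination l1 * m1
      · linear_combination l1 * m2
      · linear_combination l1 * m3
    · refine (ihr _ _ _ _ hr (2 * l0) (l1 - l0) l2 l3 (by linarith) (by linarith) h2 h3 (by linarith)).congr ?_ ?_ ?_ ?_
      · linear_combination l0 * m0
      · linear_combination l0 * m1
      · linear_combination l0 * m2
      · linear_combination l0 * m3
  | n02 l r ihl ihr =>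
    intro x0 x1 x2 x3 h l0 l1 l2 l3 h0 h1 h2 h3 hs
    simp only [chk, Bool.and_eq_true] at h
    obtain ⟨⟨hm, hl⟩, hr⟩ := h
    obtain ⟨m0, m1, m2, m3⟩ := mid_real hm
    rcases le_total l2 l0 with hc | hc
    · refine (ihl _ _ _ _ hl (l0 - l2) l1 (2 * l2) l3 (by linarith) h1 (by linarith) h3 (by linarith)).congr ?_ ?_ ?_ ?_
      · linear_combination l2 * m0
      · linear_combination l2 * m1
      · linear_combination l2 * m2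
      · linear_combination l2 * m3
    · refine (ihr _ _ _ _ hr (2 * l0) l1 (l2 - l0) l3 (by linarith) h1 (by linarith) h3 (by linarith)).congr ?_ ?_ ?_ ?_
      · linear_combination l0 * m0
      · linear_combination l0 * m1
      · linear_combination l0 * m2
      · linear_combination l0 * m3
  | n03 l r ihl ihr =>
    intro x0 x1 x2 x3 h l0 l1 l2 l3 h0 h1 h2 h3 hs
    simp only [chk, Bool.and_eq_true] at h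
    obtain ⟨⟨hm, hl⟩, hr⟩ := h
    obtain ⟨m0, m1, m2, m3⟩ := mid_real hm
    rcases le_total l3 l0 with hc | hc
    · refine (ihl _ _ _ _ hl (l0 - l3) l1 l2 (2 * l3) (by linarith) h1 h2 (by linarith) (by linarith)).congr ?_ ?_ ?_ ?_
      · linear_combination l3 * m0
      · linear_combination l3 * m1
      · linear_combination l3 * m2
      · linear_combination l3 * m3
    · refine (ihr _ _ _ _ hr (2 * l0) l1 l2 (l3 - l0) (by linarith) h1 h2 (by linarith) (by linarith)).congr ?_ ?_ ?_ ?_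
      · linear_combination l0 * m0
      · linear_combination l0 * m1
      · linear_combination l0 * m2
      · linear_combination l0 * m3
  | n12 l r ihl ihr =>
    intro x0 x1 x2 x3 h l0 l1 l2 l3 h0 h1 h2 h3 hs
    simp only [chk, Bool.and_eq_true] at h
    obtain ⟨⟨hm, hl⟩, hr⟩ := h
    obtain ⟨m0, m1, m2, m3⟩ := mid_real hm
    rcases le_total l2 l1 with hc | hc
    · refine (ihl _ _ _ _ hl l0 (l1 - l2) (2 * l2) l3 h0 (by linarith) (by linarith) h3 (by linarith)).congr ?_ ?_ ?_ ?_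
      · linear_combination l2 * m0
      · linear_combination l2 * m1
      · linear_combination l2 * m2
      · linear_combination l2 * m3
    · refine (ihr _ _ _ _ hr l0 (2 * l1) (l2 - l1) l3 h0 (by linarith) (by linarith) h3 (by linarith)).congr ?_ ?_ ?_ ?_
      · linear_combination l1 * m0
      · linear_combination l1 * m1
      · linear_combination l1 * m2
      · linear_combination l1 * m3
  | n13 l r ihl ihr =>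
    intro x0 x1 x2 x3 h l0 l1 l2 l3 h0 h1 h2 h3 hs
    simp only [chk, Bool.and_eq_true] at h
    obtain ⟨⟨hm, hl⟩, hr⟩ := h
    obtain ⟨m0, m1, m2, m3⟩ := mid_real hm
    rcases le_total l3 l1 with hc | hc
    · refine (ihl _ _ _ _ hl l0 (l1 - l3) l2 (2 * l3) h0 (by linarith) h2 (by linarith) (by linarith)).congr ?_ ?_ ?_ ?_
      · linear_combination l3 * m0
      · linear_combination l3 * m1
      · linear_combination l3 * m2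
      · linear_combination l3 * m3
    · refine (ihr _ _ _ _ hr l0 (2 * l1) l2 (l3 - l1) h0 (by linarith) h2 (by linarith) (by linarith)).congr ?_ ?_ ?_ ?_
      · linear_combination l1 * m0
      · linear_combination l1 * m1
      · linear_combination l1 * m2
      · linear_combination l1 * m3
  | n23 l r ihl ihr =>
    intro x0 x1 x2 x3 h l0 l1 l2 l3 h0 h1 h2 h3 hs
    simp only [chk, Bool.and_eq_true] at h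
    obtain ⟨⟨hm, hl⟩, hr⟩ := h
    obtain ⟨m0, m1, m2, m3⟩ := mid_real hm
    rcases le_total l3 l2 with hc | hc
    · refine (ihl _ _ _ _ hl l0 l1 (l2 - l3) (2 * l3) h0 h1 (by linarith) (by linarith) (by linarith)).congr ?_ ?_ ?_ ?_
      · linear_combination l3 * m0
      · linear_combination l3 * m1
      · linear_combination l3 * m2
      · linear_combination l3 * m3
    · refine (ihr _ _ _ _ hr l0 l1 (2 * l2) (l3 - l2) h0 h1 (by linarith) (by linarith) (by linarith)).congr ?_ ?_ ?_ ?_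
      · linear_combination l2 * m0
      · linear_combination l2 * m1
      · linear_combination l2 * m2
      · linear_combination l2 * m3

def ptA0 : Pt := ⟨240, 0, 0, 120⟩
def ptA1 : Pt := ⟨240, 0, 0, 240⟩
def ptB0 : Pt := ⟨120, 120, 0, 120⟩
def ptB1 : Pt := ⟨120, 120, 0, 240⟩
def ptD0 : Pt := ⟨120, 0, 120, 120⟩
def ptD1 : Pt := ⟨120, 0, 120, 240⟩
def ptC0 : Pt := ⟨80, 80, 80, 120⟩
def ptC1 : Pt := ⟨80, 80, 80, 240⟩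

def chkAll (C P : ℤ) (L : List (ℤ × ℤ)) (T1 T2 T3 T4 T5 T6 : Tr) : Bool :=
  chk C P L ptA0 ptB0 ptC0 ptA1 T1 && chk C P L ptB0 ptC0 ptA1 ptB1 T2 &&
  chk C P L ptC0 ptA1 ptB1 ptC1 T3 && chk C P L ptA0 ptD0 ptC0 ptA1 T4 &&
  chk C P L ptD0 ptC0 ptA1 ptD1 T5 && chk C P L ptC0 ptA1 ptD1 ptC1 T6

theorem root_sound {C P : ℤ} {L : List (ℤ × ℤ)} {T1 T2 T3 T4 T5 T6 : Tr}
    (h : chkAll C P L T1 T2 T3 T4 T5 T6 = true) {w o : ℝ} (hin : InP P L w o)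
    {p0 p1 p2 t : ℝ} (h1 : 0 ≤ p1) (h2 : 0 ≤ p2) (h01 : p1 ≤ p0) (h02 : p2 ≤ p0)
    (hs : p0 + p1 + p2 = 1) (ht0 : 1 / 2 ≤ t) (ht1 : t ≤ 1) :
    Cert C w o (240 * p0) (240 * p1) (240 * p2) (240 * t) := by
  simp only [chkAll, Bool.and_eq_true] at h
  obtain ⟨⟨⟨⟨⟨k1, k2⟩, k3⟩, k4⟩, k5⟩, k6⟩ := h
  rcases le_total p2 p1 with hc | hc
  · rcases le_total (2 * t - 1) (p0 - p1) with hd | hd
    · refine (tree_sound hin T1 _ _ _ _ k1 (p0 - p1 - (2 * t - 1)) (2 * (p1 - p2)) (3 * p2)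
        (2 * t - 1) (by linarith) (by linarith) (by linarith) (by linarith)
        (by linarith)).congr ?_ ?_ ?_ ?_ <;>
      simp only [ptA0, ptA1, ptB0, ptC0] <;> push_cast <;> linarith
    · rcases le_total (2 - 2 * t) (3 * p2) with he | he
      · refine (tree_sound hin T3 _ _ _ _ k3 (2 - 2 * t) (p0 - p1) (2 * (p1 - p2))
          (3 * p2 - (2 - 2 * t)) (by linarith) (by linarith) (by linarith) (by linarith)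
          (by linarith)).congr ?_ ?_ ?_ ?_ <;>
        simp only [ptA1, ptB1, ptC0, ptC1] <;> push_cast <;> linarith
      · refine (tree_sound hin T2 _ _ _ _ k2 (2 - 2 * t - 3 * p2) (3 * p2) (p0 - p1)
          (2 * t - 1 - (p0 - p1)) (by linarith) (by linarith) (by linarith) (by linarith)
          (by linarith)).congr ?_ ?_ ?_ ?_ <;>
        simp only [ptA1, ptB1, ptC0, ptB0] <;> push_cast <;> linarith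
  · rcases le_total (2 * t - 1) (p0 - p2) with hd | hd
    · refine (tree_sound hin T4 _ _ _ _ k4 (p0 - p2 - (2 * t - 1)) (2 * (p2 - p1)) (3 * p1)
        (2 * t - 1) (by linarith) (by linarith) (by linarith) (by linarith)
        (by linarith)).congr ?_ ?_ ?_ ?_ <;>
      simp only [ptA0, ptA1, ptD0, ptC0] <;> push_cast <;> linarith
    · rcases le_total (2 - 2 * t) (3 * p1) with he | he
      · refine (tree_sound hin T6 _ _ _ _ k6 (2 - 2 * t) (p0 - p2) (2 * (p2 - p1))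
          (3 * p1 - (2 - 2 * t)) (by linarith) (by linarith) (by linarith) (by linarith)
          (by linarith)).congr ?_ ?_ ?_ ?_ <;>
        simp only [ptA1, ptD1, ptC0, ptC1] <;> push_cast <;> linarith
      · refine (tree_sound hin T5 _ _ _ _ k5 (2 - 2 * t - 3 * p1) (3 * p1) (p0 - p2)
          (2 * t - 1 - (p0 - p2)) (by linarith) (by linarith) (by linarith) (by linarith)
          (by linarith)).congr ?_ ?_ ?_ ?_ <;>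
        simp only [ptA1, ptD1, ptC0, ptD0] <;> push_cast <;> linarith

theorem cvx {Y T a A B : ℝ} (ha : 0 ≤ a) (haT : a ≤ T) (h1 : Y ≤ T * A) (h2 : Y ≤ T * B) :
    Y ≤ a * A + (T - a) * B := by
  rcases eq_or_lt_of_le (ha.trans haT) with h0 | h0
  · subst h0
    have : a = 0 := le_antisymm haT ha
    subst this
    simpa using h1
  · have e1 := mul_le_mul_of_nonneg_left h1 ha
    have e2 := mul_le_mul_of_nonneg_left h2 (sub_nonneg.mpr haT)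
    have : T * Y ≤ T * (a * A + (T - a) * B) := by nlinarith
    exact le_of_mul_le_mul_left this h0

theorem genX {C w o t p q g X : ℝ} (hC : 0 < C) (hw : 0 < w) (ho : 0 < o) (hq : 0 ≤ q)
    (hqp : 2 * q ≤ C * p) (hqt : 2 * q * o ≤ C * t * w)
    (hX : ∀ z : ℝ, 0 ≤ z → z ≤ o * p → z ≤ t * w → X ≤ z * (g - o * p + z) + (o * p - z) * (t * w)) :
    C / 2 * w * X ≤ w * o * (q * (g - o * p) + (C / 2 * p - q) * (t * w)) + 2 / C * w * o ^ 2 * q ^ 2 := by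
  have hz : 0 ≤ 2 * o * q / C := by positivity
  have h1 : 2 * o * q / C ≤ o * p := by
    rw [div_le_iff₀ hC]; nlinarith
  have h2 : 2 * o * q / C ≤ t * w := by
    rw [div_le_iff₀ hC]; nlinarith
  have h3 := hX _ hz h1 h2
  have h4 := mul_le_mul_of_nonneg_left h3 (show 0 ≤ C / 2 * w by positivity)
  refine h4.trans (le_of_eq ?_)
  field_simp
  ring

set_option maxHeartbeats 4000000 in
/-- the real inequality produced by a certificate -/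
theorem gen {C w o t p0 p1 p2 f0 f1 f2 g0 g1 g2 Y00 Y01 Y02 Y20 Y21 Y22 X00 X01 X02 X20 X21 X22 : ℝ}
    (hC : 0 < C) (hw : 0 < w) (ho : 0 < o)
    (hf0 : 0 ≤ f0) (hf1 : 0 ≤ f1) (hf2 : 0 ≤ f2) (hg0 : 0 ≤ g0) (hg1 : 0 ≤ g1) (hg2 : 0 ≤ g2)
    (hsum : f0 + f1 + f2 + g0 + g1 + g2 = 1 - o) (hp : p0 + p1 + p2 = 1)
    (hY00 : Y00 ≤ t * (w * (f0 + g0))) (hY00' : Y00 ≤ t * (w * f1))
    (hY01 : Y01 ≤ t * (w * (f1 + g1))) (hY01' : Y01 ≤ t * (w * f2))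
    (hY02 : Y02 ≤ t * (w * (f2 + g2))) (hY02' : Y02 ≤ t * (w * f0))
    (hY20 : Y20 ≤ (1 - t) * (w * (f0 + g0))) (hY20' : Y20 ≤ (1 - t) * (w * g1))
    (hY21 : Y21 ≤ (1 - t) * (w * (f1 + g1))) (hY21' : Y21 ≤ (1 - t) * (w * g2))
    (hY22 : Y22 ≤ (1 - t) * (w * (f2 + g2))) (hY22' : Y22 ≤ (1 - t) * (w * g0))
    (hX00 : ∀ z : ℝ, 0 ≤ z → z ≤ o * p0 → z ≤ t * w → X00 ≤ z * (g1 - o * p0 + z) + (o * p0 - z) * (t * w))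
    (hX01 : ∀ z : ℝ, 0 ≤ z → z ≤ o * p1 → z ≤ t * w → X01 ≤ z * (g2 - o * p1 + z) + (o * p1 - z) * (t * w))
    (hX02 : ∀ z : ℝ, 0 ≤ z → z ≤ o * p2 → z ≤ t * w → X02 ≤ z * (g0 - o * p2 + z) + (o * p2 - z) * (t * w))
    (hX20 : ∀ z : ℝ, 0 ≤ z → z ≤ o * p0 → z ≤ (1 - t) * w → X20 ≤ z * (f1 - o * p0 + z) + (o * p0 - z) * ((1 - t) * w))
    (hX21 : ∀ z : ℝ, 0 ≤ z → z ≤ o * p1 → z ≤ (1 - t) * w → X21 ≤ z * (f2 - o * p1 + z) + (o * p1 - z) * ((1 - t) * w))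
    (hX22 : ∀ z : ℝ, 0 ≤ z → z ≤ o * p2 → z ≤ (1 - t) * w → X22 ≤ z * (f0 - o * p2 + z) + (o * p2 - z) * ((1 - t) * w))
    (hcert : Cert C w o (240 * p0) (240 * p1) (240 * p2) (240 * t)) :
    o * (Y00 + Y01 + Y02 + Y20 + Y21 + Y22)
      + C / 4 * w * ((f0 + g0) * (o * p0) + (f1 + g1) * (o * p1) + (f2 + g2) * (o * p2)
        + 2 * (X00 + X01 + X02 + X20 + X21 + X22))
      ≤ w * o * (2 / 3 * (1 + C / 4) * (1 - o) + (C / 3 - 1 / 3) * w - C / 8 * o) := by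
  obtain ⟨V, a0, a1, a2, b0, b1, b2, q0, q1, q2, r0, r1, r2, ⟨ha0, ha1, ha2, hb0, hb1, hb2⟩,
    ⟨ha0', ha1', ha2', hb0', hb1', hb2'⟩, ⟨hq0, hq1, hq2, hr0, hr1, hr2⟩,
    ⟨hq0', hq1', hq2', hr0', hr1', hr2'⟩, ⟨v1, v2, v3, v4, v5, v6⟩,
    ⟨u1, u2, u3, u4, u5, u6⟩, hD⟩ := hcert
  have y00 := cvx (a := a0 / 240) (by linarith) (by linarith) hY00 hY00'
  have y01 := cvx (a := a1 / 240) (by linarith) (by linarith) hY01 hY01'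
  have y02 := cvx (a := a2 / 240) (by linarith) (by linarith) hY02 hY02'
  have y20 := cvx (a := b0 / 240) (by linarith) (by linarith) hY20 hY20'
  have y21 := cvx (a := b1 / 240) (by linarith) (by linarith) hY21 hY21'
  have y22 := cvx (a := b2 / 240) (by linarith) (by linarith) hY22 hY22'
  have x00 := genX (q := q0 / 240) hC hw ho (by linarith) (by linarith) (by linarith) hX00
  have x01 := genX (q := q1 / 240) hC hw ho (by linarith) (by linarith) (by linarith) hX01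
  have x02 := genX (q := q2 / 240) hC hw ho (by linarith) (by linarith) (by linarith) hX02
  have x20 := genX (q := r0 / 240) hC hw ho (by linarith) (by linarith) (by linarith) hX20
  have x21 := genX (q := r1 / 240) hC hw ho (by linarith) (by linarith) (by linarith) hX21
  have x22 := genX (q := r2 / 240) hC hw ho (by linarith) (by linarith) (by linarith) hX22
  have hD2 : (240 * V - (4 + C) / 6 * 57600) * (1 - o)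
      + ((C + 2) / 6 * 57600 - ((240 * t) * (q0 + q1 + q2) + (240 - 240 * t) * (r0 + r1 + r2))) * w
      + (C / 8 * 57600 - ((240 * p0) * (q0 + r0) + (240 * p1) * (q1 + r1) + (240 * p2) * (q2 + r2))
          + 2 / C * (q0 * q0 + q1 * q1 + q2 * q2 + r0 * r0 + r1 * r1 + r2 * r2)) * o ≤ 0 := by
    have h24 : 0 < 24 * C := by linarith
    have e : (240 * V - (4 + C) / 6 * 57600) * (1 - o)
      + ((C + 2) / 6 * 57600 - ((240 * t) * (q0 + q1 + q2) + (240 - 240 * t) * (r0 + r1 + r2))) * w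
      + (C / 8 * 57600 - ((240 * p0) * (q0 + r0) + (240 * p1) * (q1 + r1) + (240 * p2) * (q2 + r2))
          + 2 / C * (q0 * q0 + q1 * q1 + q2 * q2 + r0 * r0 + r1 * r1 + r2 * r2)) * o
      = ((24 * C * 240 * V - 4 * C * (4 + C) * 240 * 240) * (1 - o)
      + (4 * C * (C + 2) * 240 * 240
          - 24 * C * ((240 * t) * (q0 + q1 + q2) + (240 - (240 * t)) * (r0 + r1 + r2))) * w
      + (3 * C * C * 240 * 240 - 24 * C * ((240 * p0) * (q0 + r0) + (240 * p1) * (q1 + r1) + (240 * p2) * (q2 + r2))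
          + 48 * (q0 * q0 + q1 * q1 + q2 * q2 + r0 * r0 + r1 * r1 + r2 * r2)) * o) / (24 * C) := by
      field_simp
      ring
    rw [e]
    exact div_nonpos_of_nonpos_of_nonneg hD h24.le
  have hwo : 0 ≤ w * o := (mul_pos hw ho).le
  have n1 := mul_nonneg hwo (mul_nonneg hf0 (sub_nonneg.mpr v1))
  have n2 := mul_nonneg hwo (mul_nonneg hf1 (sub_nonneg.mpr v2))
  have n3 := mul_nonneg hwo (mul_nonneg hf2 (sub_nonneg.mpr v3))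
  have n4 := mul_nonneg hwo (mul_nonneg hg0 (sub_nonneg.mpr v4))
  have n5 := mul_nonneg hwo (mul_nonneg hg1 (sub_nonneg.mpr v5))
  have n6 := mul_nonneg hwo (mul_nonneg hg2 (sub_nonneg.mpr v6))
  have n7 := mul_nonpos_of_nonneg_of_nonpos hwo hD2
  have z00 := mul_le_mul_of_nonneg_left y00 ho.le
  have z01 := mul_le_mul_of_nonneg_left y01 ho.le
  have z02 := mul_le_mul_of_nonneg_left y02 ho.le
  have z20 := mul_le_mul_of_nonneg_left y20 ho.le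
  have z21 := mul_le_mul_of_nonneg_left y21 ho.le
  have z22 := mul_le_mul_of_nonneg_left y22 ho.le
  clear hX00 hX01 hX02 hX20 hX21 hX22 hD hD2
  obtain rfl : o = 1 - (f0 + f1 + f2 + g0 + g1 + g2) := by linarith
  obtain rfl : p2 = 1 - p0 - p1 := by linarith
  linear_combination z00 + z01 + z02 + z20 + z21 + z22 + x00 + x01 + x02 + x20 + x21 + x22
    + (1 / 960) * n1 + (1 / 960) * n2 + (1 / 960) * n3 + (1 / 960) * n4 + (1 / 960) * n5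
    + (1 / 960) * n6 + (1 / 57600) * n7

end Pool.Agent.H995.GD
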