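import Pool.Agent.H995.GData2
import Pool.Agent.H995.GFin

namespace Pool.Agent.H995.GD

theorem r1_in {w o : ℝ} (c0 : 12 / 19 * (2 / 3 - o) ≤ w) (c1 : 3 * o - 1 ≤ w) (c2 : w ≤ 3 / 5 * o) : InP 10764 r1L w o := by
  intro α β γ h
  have v0 : α + β * (8 / 39) + γ * (40 / 117) ≤ 0 := by
    have := h (2208, 3680) (by simp [r1L])
    push_cast at this
    linarith
  have v1 : α + β * (4 / 23) + γ * (9 / 23) ≤ 0 := by
    have := h (1872, 4212) (by simp [r1L])
    push_cast at this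
    linarith
  have v2 : α + β * (1 / 4) + γ * (5 / 12) ≤ 0 := by
    have := h (2691, 4485) (by simp [r1L])
    push_cast at this
    linarith
  exact triIn v0 v1 v2 (m1 := ((39 / 7) + (39 / 7) * w + (-117 / 7) * o)) (m2 := ((0) + (-115 / 7) * w + (69 / 7) * o)) (m3 := ((-32 / 7) + (76 / 7) * w + (48 / 7) * o)) (by linarith) (by linarith) (by linarith) (by ring) (by ring) (by ring)

theorem r2_in {w o : ℝ} (c0 : 3 / 10 ≤ o) (c1 : 12 / 19 * (2 / 3 - o) ≤ w) (c2 : 3 / 5 * o ≤ w) (c3 : 3 * o - 1 ≤ w) (c4 : w ≤ 4 / 5 * o) : InP 2445300 r2L w o := by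
  intro α β γ h
  have v0 : α + β * (22 / 95) + γ * (3 / 10) ≤ 0 := by
    have := h (566280, 733590) (by simp [r2L])
    push_cast at this
    linarith
  have v1 : α + β * (8 / 39) + γ * (40 / 117) ≤ 0 := by
    have := h (501600, 836000) (by simp [r2L])
    push_cast at this
    linarith
  have v2 : α + β * (1 / 4) + γ * (5 / 12) ≤ 0 := by
    have := h (611325, 1018875) (by simp [r2L])
    push_cast at this
    linarith
  have v3 : α + β * (4 / 11) + γ * (5 / 11) ≤ 0 := by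
    have := h (889200, 1111500) (by simp [r2L])
    push_cast at this
    linarith
  have v4 : α + β * (6 / 25) + γ * (3 / 10) ≤ 0 := by
    have := h (586872, 733590) (by simp [r2L])
    push_cast at this
    linarith
  rcases le_total 0 ((39 / 7) + (-1482 / 49) * w + (234 / 49) * o) with hh1 | hh1
  · exact triIn v0 v1 v2 (m1 := ((0) + (950 / 49) * w + (-570 / 49) * o)) (m2 := ((39 / 7) + (-1482 / 49) * w + (234 / 49) * o)) (m3 := ((-32 / 7) + (76 / 7) * w + (48 / 7) * o)) (by linarith) (by linarith) (by linarith) (by ring) (by ring) (by ring)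
  · rcases le_total 0 ((-32 / 105) + (-1292 / 105) * w + (368 / 35) * o) with hh2 | hh2
    · exact triIn v0 v2 v3 (m1 := ((190 / 63) + (190 / 63) * w + (-190 / 21) * o)) (m2 := ((-32 / 105) + (-1292 / 105) * w + (368 / 35) * o)) (m3 := ((-77 / 45) + (418 / 45) * w + (-22 / 15) * o)) (by linarith) (by linarith) (by linarith) (by ring) (by ring) (by ring)
    · exact triIn v0 v3 v4 (m1 := ((0) + (-475 / 4) * w + (95) * o)) (m2 := ((-33 / 17) + (0) * w + (110 / 17) * o)) (m3 := ((50 / 17) + (475 / 4) * w + (-1725 / 17) * o)) (by linarith) (by linarith) (by linarith) (by ring) (by ring) (by ring)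

theorem r3_in {w o : ℝ} (c0 : 3 / 10 ≤ o) (c1 : 4 / 5 * o ≤ w) (c2 : w ≤ o) (c3 : 3 * o - 1 ≤ w) : InP 550 r3L w o := by
  intro α β γ h
  have v0 : α + β * (4 / 11) + γ * (5 / 11) ≤ 0 := by
    have := h (200, 250) (by simp [r3L])
    push_cast at this
    linarith
  have v1 : α + β * (1 / 2) + γ * (1 / 2) ≤ 0 := by
    have := h (275, 275) (by simp [r3L])
    push_cast at this
    linarith
  have v2 : α + β * (3 / 10) + γ * (3 / 10) ≤ 0 := by
    have := h (165, 165) (by simp [r3L])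
    push_cast at this
    linarith
  have v3 : α + β * (6 / 25) + γ * (3 / 10) ≤ 0 := by
    have := h (132, 165) (by simp [r3L])
    push_cast at this
    linarith
  rcases le_total 0 ((-3 / 2) + (17 / 2) * w + (-7 / 2) * o) with hh1 | hh1
  · exact triIn v0 v1 v2 (m1 := ((0) + (-11) * w + (11) * o)) (m2 := ((-3 / 2) + (17 / 2) * w + (-7 / 2) * o)) (m3 := ((5 / 2) + (5 / 2) * w + (-15 / 2) * o)) (by linarith) (by linarith) (by linarith) (by ring) (by ring) (by ring)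
  · exact triIn v0 v2 v3 (m1 := ((-33 / 17) + (0) * w + (110 / 17) * o)) (m2 := ((0) + (50 / 3) * w + (-40 / 3) * o)) (m3 := ((50 / 17) + (-50 / 3) * w + (350 / 51) * o)) (by linarith) (by linarith) (by linarith) (by ring) (by ring) (by ring)

theorem r4_in {w o : ℝ} (c0 : 3 / 10 ≤ o) (c1 : o ≤ w) (c2 : w ≤ 1 / 2) : InP 10 r4L w o := by
  intro α β γ h
  have v0 : α + β * (1 / 2) + γ * (1 / 2) ≤ 0 := by
    have := h (5, 5) (by simp [r4L])
    push_cast at this
    linarith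
  have v1 : α + β * (1 / 2) + γ * (3 / 10) ≤ 0 := by
    have := h (5, 3) (by simp [r4L])
    push_cast at this
    linarith
  have v2 : α + β * (3 / 10) + γ * (3 / 10) ≤ 0 := by
    have := h (3, 3) (by simp [r4L])
    push_cast at this
    linarith
  exact triIn v0 v1 v2 (m1 := ((-3 / 2) + (0) * w + (5) * o)) (m2 := ((0) + (5) * w + (-5) * o)) (m3 := ((5 / 2) + (-5) * w + (0) * o)) (by linarith) (by linarith) (by linarith) (by ring) (by ring) (by ring)

/-- the second region -/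
theorem cert_exists2 {w o p0 p1 p2 t : ℝ} (ho : 3 / 10 ≤ o) (hw1 : w ≤ 1 / 2)
    (hw2 : 12 / 19 * (2 / 3 - o) ≤ w) (hw3 : 3 * o - 1 ≤ w)
    (h1 : 0 ≤ p1) (h2 : 0 ≤ p2) (h01 : p1 ≤ p0) (h02 : p2 ≤ p0)
    (hs : p0 + p1 + p2 = 1) (ht0 : 1 / 2 ≤ t) (ht1 : t ≤ 1) :
    Cert 6 w o (240 * p0) (240 * p1) (240 * p2) (240 * t) ∧ 2 * o ≤ 6 * w ∨
    Cert 5 w o (240 * p0) (240 * p1) (240 * p2) (240 * t) ∧ 2 * o ≤ 5 * w := by
  rcases le_total w (3 / 5 * o) with hc | hc
  · right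
    refine ⟨?_, by linarith⟩
    have hin : InP 10764 r1L w o := r1_in hw2 hw3 hc
    exact_mod_cast root_sound r1_ok hin h1 h2 h01 h02 hs ht0 ht1
  · left
    refine ⟨?_, by linarith⟩
    rcases le_total w (4 / 5 * o) with hd | hd
    · have hin : InP 2445300 r2L w o := r2_in ho hw2 hc hw3 hd
      exact_mod_cast root_sound r2_ok hin h1 h2 h01 h02 hs ht0 ht1
    · rcases le_total w o with he | he
      · have hin : InP 550 r3L w o := r3_in ho hd he hw3
        exact_mod_cast root_sound r3_ok hin h1 h2 h01 h02 hs ht0 ht1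
      · have hin : InP 10 r4L w o := r4_in ho he hw1
        exact_mod_cast root_sound r4_ok hin h1 h2 h01 h02 hs ht0 ht1

variable {w o t f0 f1 f2 g0 g1 g2 o0 o1 o2 Y00 Y01 Y02 Y20 Y21 Y22 X00 X01 X02 X20 X21 X22 : ℝ}

theorem H.cert2 (h : H w o t f0 f1 f2 g0 g1 g2 o0 o1 o2 Y00 Y01 Y02 Y20 Y21 Y22 X00 X01 X02 X20 X21 X22)
    (ht : 1 / 2 ≤ t) (ho' : 3 / 10 ≤ o) (hw1 : w ≤ 1 / 2)
    (hw2 : 12 / 19 * (2 / 3 - o) ≤ w) (hw3 : 3 * o - 1 ≤ w)
    (h1 : o1 ≤ o0) (h2 : o2 ≤ o0) :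
    Concl w o (Y00 + Y01 + Y02 + Y20 + Y21 + Y22)
      ((f0 + g0) * o0 + (f1 + g1) * o1 + (f2 + g2) * o2)
      (X00 + X01 + X02 + X20 + X21 + X22) := by
  have ho := h.ho
  have hp : o0 / o + o1 / o + o2 / o = 1 := by
    rw [← add_div, ← add_div, h.hso]; exact div_self ho.ne'
  rcases cert_exists2 ho' hw1 hw2 hw3 (div_nonneg h.ho1 ho.le)
    (div_nonneg h.ho2 ho.le) (div_le_div_of_nonneg_right h1 ho.le)
    (div_le_div_of_nonneg_right h2 ho.le) hp ht h.t1 with hc | hc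
  · exact h.of_cert (by norm_num) hc.2 hc.1
  · exact h.of_cert (by norm_num) hc.2 hc.1

theorem H.half2 (h : H w o t f0 f1 f2 g0 g1 g2 o0 o1 o2 Y00 Y01 Y02 Y20 Y21 Y22 X00 X01 X02 X20 X21 X22)
    (ht : 1 / 2 ≤ t) (ho' : 3 / 10 ≤ o) (hw1 : w ≤ 1 / 2)
    (hw2 : 12 / 19 * (2 / 3 - o) ≤ w) (hw3 : 3 * o - 1 ≤ w) :
    Concl w o (Y00 + Y01 + Y02 + Y20 + Y21 + Y22)
      ((f0 + g0) * o0 + (f1 + g1) * o1 + (f2 + g2) * o2)
      (X00 + X01 + X02 + X20 + X21 + X22) := by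
  rcases le_total o1 o0 with h1 | h1
  · rcases le_total o2 o0 with h2 | h2
    · exact h.cert2 ht ho' hw1 hw2 hw3 h1 h2
    · exact (h.rot.rot.cert2 ht ho' hw1 hw2 hw3 h2 (h1.trans h2)).congr
        (by ring) (by ring) (by ring)
  · rcases le_total o2 o1 with h2 | h2
    · exact (h.rot.cert2 ht ho' hw1 hw2 hw3 h2 h1).congr
        (by ring) (by ring) (by ring)
    · exact (h.rot.rot.cert2 ht ho' hw1 hw2 hw3 (h1.trans h2) h2).congr
        (by ring) (by ring) (by ring)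

/-- main real inequality in the second region: `W` even, one or two classes mod 4 -/
theorem D_main2 (h : H w o t f0 f1 f2 g0 g1 g2 o0 o1 o2 Y00 Y01 Y02 Y20 Y21 Y22 X00 X01 X02 X20 X21 X22)
    (ho' : 3 / 10 ≤ o) (ho5 : o ≤ 1 / 2) (hw1 : w ≤ 1)
    (hw2 : 12 / 19 * (2 / 3 - o) ≤ w) (hw3 : 3 * o - 1 ≤ w)
    (hP : o * (3 - 4 * o) / 2 ≤ (1 - w) ^ 2) :
    Concl w o (Y00 + Y01 + Y02 + Y20 + Y21 + Y22)
      ((f0 + g0) * o0 + (f1 + g1) * o1 + (f2 + g2) * o2)
      (X00 + X01 + X02 + X20 + X21 + X22) := by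
  have hw : w ≤ 1 / 2 := by
    by_contra hcon
    push Not at hcon
    nlinarith [mul_nonneg (sub_nonneg.mpr ho') (sub_nonneg.mpr ho5)]
  rcases le_total (1 / 2) t with ht | ht
  · exact h.half2 ht ho' hw hw2 hw3
  · exact (h.swap.half2 (by linarith) ho' hw hw2 hw3).congr (by ring) (by ring) (by ring)

end Pool.Agent.H995.GD
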